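import Pool.Agent.Helper42.SQ.DATAg

/-!
# SQ: a sequence of points with Galois closures of bounded degree has a subsequence with constant group
-/

set_option autoImplicit false

namespace Pool.Agent.SQ

open NumberField Filter Module MvPolynomial
open Pool.Agent.Helper64.Vojta (Pl nv sn above)
open Pool.Agent.V2
open Pool.Agent.Chart (fld dg crd hgt)

universe u

theorem fing_finDim {k : Type u} [Field k] [NumberField k] {N : ℕ} (x : Fin N → AlgebraicClosure k) :
    FiniteDimensional k (gal x) := by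
  have h1 : FiniteDimensional k (fld x) :=
    IntermediateField.finiteDimensional_adjoin fun x _ => Algebra.IsIntegral.isIntegral x
  unfold gal
  infer_instance

theorem fing_isGalois {k : Type u} [Field k] [NumberField k] {N : ℕ} (x : Fin N → AlgebraicClosure k) :
    IsGalois k (gal x) := by
  have h1 : FiniteDimensional k (fld x) :=
    IntermediateField.finiteDimensional_adjoin fun x _ => Algebra.IsIntegral.isIntegral x
  have h2 := fing_finDim x
  have h3 : Normal k (gal x) := by
    unfold gal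
    infer_instance
  exact { to_normal := h3 }

theorem QSG.comp_equiv {k L : Type u} [Field k] [NumberField k] [Field L] [Algebra k L] {G : Type*} [Group G] [Fintype G]
    {G' : Type*} [Group G'] [Fintype G'] {s : G' →* (L ≃ₐ[k] L)} {N : Pl k → L → ℝ} (h : QSG s N) (e : G ≃* G') :
    QSG (s.comp e.toMonoidHom) N where
  zero := h.zero
  pos := h.pos
  mul := h.mul
  add := h.add
  ult := h.ult
  ext := h.ext
  fin := h.fin
  prod := by
    intro x hx
    rw [← h.prod x hx]
    congr 1
    funext v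
    exact Equiv.sum_comp e.toEquiv fun g => Real.log (N v (s g x))
  fix := by
    intro x hx
    refine h.fix x fun g => ?_
    have := hx (e.symm g)
    simpa using this

theorem Hg_comp_equiv {k L : Type u} [Field k] [NumberField k] [Field L] [Algebra k L] {G : Type*} [Group G] [Fintype G]
    {G' : Type*} [Group G'] [Fintype G'] (s : G' →* (L ≃ₐ[k] L)) (N : Pl k → L → ℝ) (e : G ≃* G') {ι : Type*} (x : ι → L) :
    Hg (s.comp e.toMonoidHom) N x = Hg s N x := by
  unfold Hg
  congr 1
  funext v
  exact Equiv.sum_comp e.toEquiv fun g => Real.log (mxn (N v) fun j => s g (x j))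

/-- a copy of `Fin c` without instances -/
def FinG (c : ℕ) : Type := Fin c

instance (c : ℕ) : Fintype (FinG c) := inferInstanceAs (Fintype (Fin c))

/-- A sequence of points with Galois closures of bounded degree has a subsequence with the same group. -/
theorem exists_seq_g {k : Type u} [Field k] [NumberField k] {N r : ℕ} (x : ℕ → Fin (N + 1) → AlgebraicClosure k)
    (h1 : ∀ a, ∃ j, x a j = 1) (hr : ∀ a, finrank k (gal (x a)) ≤ r) :
    ∃ (G : Type) (_ : Group G) (_ : Fintype G) (φ : ℕ → ℕ), StrictMono φ ∧ Fintype.card G ≤ r ∧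
      ∃ (y : ∀ a, Fin (N + 1) → gal (x (φ a))) (M : ∀ a, Pl k → gal (x (φ a)) → ℝ)
        (s : ∀ a, G →* (gal (x (φ a)) ≃ₐ[k] gal (x (φ a)))),
        (∀ a j, (y a j : AlgebraicClosure k) = x (φ a) j) ∧ (∀ a, QSG (s a) (M a)) ∧
        (∀ a, (Fintype.card G : ℝ) * hgt (x (φ a)) = Hg (s a) (M a) (y a)) ∧
        ∀ (a : ℕ) (v : Pl k) (d : ℕ) (f : MvPolynomial (Fin (N + 1)) k), aeval (crd (x (φ a))) f ≠ 0 →
          (Fintype.card G : ℝ) * lamP d f v (x (φ a)) =
            ∑ g, (d * Real.log (mxn (M a v) fun j => s a g (y a j)) - Real.log (M a v (s a g (aeval (y a) f)))) := by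
  classical
  have key : ∀ a, ∃ τ : (Σ c : Fin (r + 1), (FinG c → FinG c → FinG c)), finrank k (gal (x a)) = τ.1 ∧
      ∃ e : FinG τ.1 ≃ (gal (x a) ≃ₐ[k] gal (x a)), ∀ i j, e (τ.2 i j) = e i * e j := by
    intro a
    have h2 := fing_finDim (x a)
    have h3 := fing_isGalois (x a)
    have h4 : Nat.card (gal (x a) ≃ₐ[k] gal (x a)) = finrank k (gal (x a)) := IsGalois.card_aut_eq_finrank k _
    have h5 : Finite (gal (x a) ≃ₐ[k] gal (x a)) := inferInstance
    have e0 : FinG (finrank k (gal (x a))) ≃ (gal (x a) ≃ₐ[k] gal (x a)) :=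
      ((Finite.equivFin _).trans (finCongr h4)).symm
    refine ⟨⟨⟨finrank k (gal (x a)), Nat.lt_succ_of_le (hr a)⟩, fun i j => e0.symm (e0 i * e0 j)⟩, rfl, e0,
      fun i j => ?_⟩
    exact e0.apply_symm_apply _
  choose τ hτ using key
  have hfin : Finite (Σ c : Fin (r + 1), (FinG c → FinG c → FinG c)) := by
    have : ∀ c : Fin (r + 1), Finite (FinG c → FinG c → FinG c) := fun c => inferInstance
    infer_instance
  obtain ⟨t, ht⟩ := Finite.exists_infinite_fiber τ
  have h2 : ∃ᶠ a in atTop, τ a = t := by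
    rw [Nat.frequently_atTop_iff_infinite]
    exact Set.infinite_coe_iff.1 ht
  obtain ⟨φ, hφ, hφt⟩ := extraction_of_frequently_atTop h2
  obtain ⟨⟨c, hc⟩, tb⟩ := t
  have h3 : ∀ a, finrank k (gal (x (φ a))) = c ∧
      ∃ e : FinG c ≃ (gal (x (φ a)) ≃ₐ[k] gal (x (φ a))), ∀ i j, e (tb i j) = e i * e j := by
    intro a
    have := hτ (φ a)
    rw [hφt a] at this
    exact this
  have hcr : c ≤ r := Nat.lt_succ_iff.1 hc
  obtain ⟨hc0, e0, he0⟩ := h3 0
  let gr : Group (FinG c) := e0.group
  have hcard : Fintype.card (FinG c) = c := Fintype.card_fin c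
  have hmul : ∀ i j : FinG c, i * j = tb i j := by
    intro i j
    apply e0.injective
    rw [he0]
    exact e0.apply_symm_apply _
  have h4 : ∀ a, Nonempty (FinG c ≃* (gal (x (φ a)) ≃ₐ[k] gal (x (φ a)))) := by
    intro a
    obtain ⟨-, e, he⟩ := h3 a
    exact ⟨MulEquiv.mk' e fun i j => by rw [hmul, he]⟩
  have e := fun a => (h4 a).some
  have h5 := fun a => data_g (x (φ a)) (h1 (φ a))
  choose y M ft h6 h7 h8 h9 using h5
  refine ⟨FinG c, gr, inferInstance, φ, hφ, hcard.le.trans hcr, y, M, fun a => (e a).toMonoidHom, h6, ?_, ?_, ?_⟩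
  · intro a
    exact (h7 a).comp_equiv (e a)
  · intro a
    have h10 := h8 a
    rw [(h3 a).1] at h10
    rw [hcard, h10]
    exact (Hg_comp_equiv (MonoidHom.id _) (M a) (e a) (y a)).symm
  · intro a v d f hf
    have h10 := h9 a v d f hf
    rw [(h3 a).1] at h10
    rw [hcard, h10]
    exact (Equiv.sum_comp (e a).toEquiv fun g =>
      (d * Real.log (mxn (M a v) fun j => g (y a j)) - Real.log (M a v (g (aeval (y a) f))))).symm

end Pool.Agent.SQ
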